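import Pool.Agent.K6.H25.QE.Good

/-!
# Chains of valuations over a ring
-/

set_option autoImplicit false
set_option linter.unusedVariables false
set_option linter.unusedSectionVars false

universe u

namespace Pool.Agent.K6.H25.QE

open IsLocalRing Pool.Agent.W418.LU2 Pool.Agent.TH188.QS Pool.Agent.H176.DT Pool.Agent.R187.CT
open Pool.Agent.K6.H34.LU Cardinal
open Pool.Agent.K6.H25.LDU (vlt img_res' trdeg_range)

theorem good_local' {R : Type u} [CommRing R] (hR : HJ R) {F : Type u} [Field F] (ρ : R →+* F)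
    (W : ValuationSubring F) (h1 : ∀ W' : ValuationSubring F, W ≤ W' → W' = W ∨ W' = ⊤)
    {T₁ : Set F} (hT₁ : T₁.Finite) {B : Subring F} (hBeq : B = rg ρ T₁) (hB : B ≤ W.toSubring)
    {n m d : ℕ} (hn : Algebra.trdeg B F = n)
    (hm : Algebra.trdeg (psi W B hB).range (ResidueField W) = m)
    (hd : (cen W B hB).height + n ≤ m + d) (hLU : LUQ R d) : Good ρ W := by
  subst hBeq
  exact good_local hR ρ W h1 hT₁ hB hn hm hd hLU

lemma trdeg_le_map {κ κ' : Type u} [Field κ] [Field κ'] (S : Subring κ) (f : κ →+* κ')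
    (hf : Function.Surjective f) : Algebra.trdeg (S.map f) κ' ≤ Algebra.trdeg S κ := by
  let _ : Algebra S κ' := (f.comp S.subtype).toAlgebra
  have hff : FaithfulSMul S κ' := (faithfulSMul_iff_algebraMap_injective S κ').2
    (f.injective.comp Subtype.val_injective)
  let G : κ →ₐ[S] κ' := { f with commutes' := fun c => rfl }
  have h1 := _root_.lift_trdeg_le_of_surjective G hf
  rw [Cardinal.lift_id, Cardinal.lift_id] at h1
  have h2 : Algebra.trdeg (S.map f) κ' = Algebra.trdeg S κ' := by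
    refine trdeg_range S κ' _ ?_
    ext z
    constructor
    · rintro ⟨c, rfl⟩
      exact ⟨c, c.2, rfl⟩
    · rintro ⟨c, hc, rfl⟩
      exact ⟨⟨c, hc⟩, rfl⟩
  rw [h2]
  exact h1

lemma trdeg_congr {κ κ' : Type u} [Field κ] [Field κ'] (S : Subring κ) (S' : Subring κ')
    (f : κ →+* κ') (hf : Function.Surjective f) (h : S.map f = S') :
    Algebra.trdeg S' κ' = Algebra.trdeg S κ := by
  subst h
  refine le_antisymm (trdeg_le_map S f hf) ?_
  let e : κ ≃+* κ' := RingEquiv.ofBijective f ⟨f.injective, hf⟩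
  have h1 := trdeg_le_map (S.map f) e.symm.toRingHom e.symm.surjective
  have h2 : (S.map f).map e.symm.toRingHom = S := by
    ext z
    constructor
    · rintro ⟨_, ⟨y, hy, rfl⟩, rfl⟩
      have h3 : e.symm.toRingHom (f y) = y := e.symm_apply_apply y
      rw [h3]
      exact hy
    · intro hz
      exact ⟨f z, ⟨z, hz, rfl⟩, e.symm_apply_apply z⟩
  rwa [h2] at h1

variable {R K : Type u} [CommRing R] [Field K]

lemma rg_res (ρ : R →+* K) (T : Set K) (U' : ValuationSubring K) (hU' : rg ρ T ≤ U'.toSubring)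
    (hρ : ∀ a, ρ a ∈ U'.toSubring) :
    (psi U' (rg ρ T) hU').range = rg ((residue U').comp (ρ.codRestrict U'.toSubring hρ))
      ((psi U' (rg ρ T) hU') '' {b | (b : K) ∈ T}) := by
  set T₁ := (psi U' (rg ρ T) hU') '' {b | (b : K) ∈ T} with hT₁
  apply le_antisymm
  · let S : Subring K := ((rg ((residue U').comp (ρ.codRestrict U'.toSubring hρ))
      T₁).comap (residue U')).map U'.subtype
    have hS : rg ρ T ≤ S := by
      rw [Subring.closure_le]
      rintro x (⟨c, rfl⟩ | hx)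
      · refine ⟨⟨ρ c, hρ c⟩, ?_, rfl⟩
        exact Subring.subset_closure (Or.inl ⟨c, rfl⟩)
      · have hxB : x ∈ rg ρ T := Subring.subset_closure (Or.inr hx)
        refine ⟨⟨x, hU' hxB⟩, ?_, rfl⟩
        exact Subring.subset_closure (Or.inr ⟨⟨x, hxB⟩, hx, rfl⟩)
    rintro _ ⟨⟨b, hb⟩, rfl⟩
    obtain ⟨y, hy, hyb⟩ := hS hb
    have h2 : psi U' _ hU' ⟨b, hb⟩ = residue U' y := by
      change residue U' ⟨b, _⟩ = residue U' y
      congr 1
      exact Subtype.ext hyb.symm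
    rw [h2]
    exact hy
  · rw [Subring.closure_le]
    rintro x (⟨c, rfl⟩ | ⟨b, hb, rfl⟩)
    · exact ⟨⟨ρ c, Subring.subset_closure (Or.inl ⟨c, rfl⟩)⟩, rfl⟩
    · exact ⟨b, rfl⟩

/-- An elementary step. -/
theorem good_step' (hR : HJ R) (ρ : R →+* K) {T : Set K} (hT : T.Finite)
    {U U' : ValuationSubring K} (hle : U ≤ U') (hU : rg ρ T ≤ U.toSubring)
    (hU' : rg ρ T ≤ U'.toSubring)
    (hadj : ∀ U'' : ValuationSubring K, U ≤ U'' → U'' ≤ U' → U'' = U ∨ U'' = U') {h n m d : ℕ}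
    (hh : ((cen U (rg ρ T) hU).map (Ideal.Quotient.mk (cen U' (rg ρ T) hU'))).height = h)
    (hn : Algebra.trdeg (psi U' (rg ρ T) hU').range (ResidueField U') = n)
    (hm : Algebra.trdeg (psi U (rg ρ T) hU).range (ResidueField U) = m)
    (hd : h + n ≤ m + d) (hLU : LUQ R d) (hG : Good ρ U') : Good ρ U := by
  have hρ : ∀ a, ρ a ∈ U'.toSubring := fun a => hU' (Subring.subset_closure (Or.inl ⟨a, rfl⟩))
  obtain ⟨G, hGs, hGc⟩ := img_res' hle
  refine good_comp hR ρ hρ (cmp_img hle) hG ?_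
  set B := rg ρ T with hBdef
  have hB' : (psi U' B hU').range ≤ (img hle).toSubring := by
    rintro _ ⟨b, rfl⟩
    exact (mem_img hle (hU' b.2)).2 (hU b.2)
  have hkey : ∀ b : B, psi (img hle) _ hB' ⟨psi U' B hU' b, ⟨b, rfl⟩⟩ = G (psi U B hU b) := by
    intro b
    exact (hGc ⟨b, hU b.2⟩).symm
  have hT₁ : ((psi U' B hU') '' {b | (b : K) ∈ T}).Finite :=
    (hT.preimage Subtype.val_injective.injOn).image _
  refine good_local' hR _ (img hle) (img_rank hle hadj) hT₁ (rg_res ρ T U' hU' hρ) hB' hn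
    (m := m) ?_ ?_ hLU
  · rw [← hm]
    refine trdeg_congr _ _ G hGs ?_
    ext z
    constructor
    · rintro ⟨_, ⟨b, rfl⟩, rfl⟩
      exact ⟨⟨psi U' B hU' b, ⟨b, rfl⟩⟩, hkey b⟩
    · rintro ⟨⟨_, ⟨b, rfl⟩⟩, rfl⟩
      exact ⟨psi U B hU b, ⟨b, rfl⟩, (hkey b).symm⟩
  · have hcle : cen U' B hU' ≤ cen U B hU := by
      intro b hb
      rw [mem_cen] at hb ⊢
      rcases hb with hb | hb
      · exact Or.inl hb
      · exact Or.inr fun h2 => hb (hle h2)
    let e : B ⧸ cen U' B hU' ≃+* (psi U' B hU').range := RingHom.quotientKerEquivRange (psi U' B hU')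
    have h2 : (cen (img hle) _ hB').comap e =
        (cen U B hU).map (Ideal.Quotient.mk (cen U' B hU')) := by
      ext x
      obtain ⟨b, rfl⟩ := Ideal.Quotient.mk_surjective x
      rw [Ideal.mem_comap, Ideal.mem_quotient_iff_mem hcle]
      have h3 : e (Ideal.Quotient.mk (cen U' B hU') b) = ⟨psi U' B hU' b, ⟨b, rfl⟩⟩ := rfl
      rw [h3]
      change psi (img hle) _ hB' ⟨psi U' B hU' b, ⟨b, rfl⟩⟩ = 0 ↔ psi U B hU b = 0
      rw [hkey b, map_eq_zero]
    have h3 : (cen (img hle) _ hB').height = h := by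
      rw [← hh, ← h2, RingEquiv.height_comap]
    rw [h3]
    exact_mod_cast hd

/-- Chains. -/
theorem good_chain' (hR : HJ R) (ρ : R →+* K) {T : Set K} (hT : T.Finite) {d : ℕ} (hLU : LUQ R d)
    (r : ℕ) (U : ℕ → ValuationSubring K) (h0 : U 0 = ⊤) (hU : ∀ i, rg ρ T ≤ (U i).toSubring)
    (hle : ∀ i < r, U (i + 1) ≤ U i)
    (hadj : ∀ i < r, ∀ U'' : ValuationSubring K, U (i + 1) ≤ U'' → U'' ≤ U i →
      U'' = U (i + 1) ∨ U'' = U i) (h t : ℕ → ℕ)
    (hh : ∀ i < r, ((cen (U (i + 1)) (rg ρ T) (hU _)).map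
      (Ideal.Quotient.mk (cen (U i) (rg ρ T) (hU _)))).height = h i)
    (ht : ∀ i ≤ r, Algebra.trdeg (psi (U i) (rg ρ T) (hU _)).range (ResidueField (U i)) = t i)
    (hd : ∀ i < r, h i + t i ≤ t (i + 1) + d) : ∀ i ≤ r, Good ρ (U i) := by
  intro i
  induction i with
  | zero =>
    intro _
    rw [h0]
    exact good_top ρ
  | succ i ih =>
    intro hi
    exact good_step' hR ρ hT (hle i hi) (hU _) (hU _) (hadj i hi) (hh i hi)
      (ht i (Nat.le_of_succ_le hi)) (ht (i + 1) hi) (hd i hi) hLU (ih (Nat.le_of_succ_le hi))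

end Pool.Agent.K6.H25.QE
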