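import Pool.Agent.K6.H25.QE.Reach
import Pool.Agent.K6.H34.LU.C
import Pool.Agent.K6.H25.LDU.Step

/-!
# Valuations whose components have small local relative dimension
-/

set_option autoImplicit false
set_option linter.unusedVariables false
set_option linter.unusedSectionVars false

universe u

namespace Pool.Agent.K6.H25.QE

open IsLocalRing Pool.Agent.W418.LU2 Pool.Agent.TH188.QS Pool.Agent.H176.DT Pool.Agent.R187.CT
open Pool.Agent.K6.H34.LU Cardinal
open Pool.Agent.K6.H25.LDU (vlt img_res' trdeg_range)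

/-- Log uniformization over `R`, in local dimension at most `d`, for valuations of rank one with
algebraic residue fields. -/
def LUQ (R : Type u) [CommRing R] (d : ℕ) : Prop :=
  ∀ (F : Type u) [Field F] (ρ : R →+* F) (T : Set F) (V : ValuationSubring F), T.Finite →
    (∀ z, Fr (rg ρ T) z) → ∀ (hV : rg ρ T ≤ V.toSubring), (cen V (rg ρ T) hV).height ≤ d →
    V ≠ ⊤ → (∀ V' : ValuationSubring F, V ≤ V' → V' = V ∨ V' = ⊤) →
    (∀ z ∈ V, ∃ P : Polynomial (rg ρ T), (∃ i, P.coeff i ∉ cen V (rg ρ T) hV) ∧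
      V.valuation (Polynomial.eval₂ (rg ρ T).subtype z P) < 1) → LogUnif V (rg ρ T)

section

variable {F : Type u} [Field F]

lemma mem_cen (W : ValuationSubring F) (B : Subring F) (h : B ≤ W.toSubring) (b : B) :
    b ∈ cen W B h ↔ ((b : F) = 0 ∨ (b : F)⁻¹ ∉ W) := by
  rw [← vlt]
  change residue W ⟨b, h b.2⟩ = 0 ↔ _
  rw [residue_eq_zero_iff]
  exact W.valuation_lt_one_iff ⟨b, h b.2⟩

end

theorem good_local {R : Type u} [CommRing R] (hR : HJ R) {F : Type u} [Field F] (ρ : R →+* F)
    (W : ValuationSubring F) (h1 : ∀ W' : ValuationSubring F, W ≤ W' → W' = W ∨ W' = ⊤)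
    {T₁ : Set F} (hT₁ : T₁.Finite) (hB : rg ρ T₁ ≤ W.toSubring) {n m d : ℕ}
    (hn : Algebra.trdeg (rg ρ T₁) F = n)
    (hm : Algebra.trdeg (psi W _ hB).range (ResidueField W) = m)
    (hd : (cen W _ hB).height + n ≤ m + d) (hLU : LUQ R d) : Good ρ W := by
  classical
  by_cases hWtop : W = ⊤
  · rw [hWtop]
    exact good_top ρ
  obtain ⟨x, hx⟩ : ∃ x : F, x ∉ W := by
    by_contra hcon
    push Not at hcon
    exact hWtop (top_unique fun z _ => hcon z)
  have hxi : x⁻¹ ∈ W := (W.mem_or_inv_mem x).resolve_left hx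
  obtain ⟨T₀, hT₀, hT₀W, hreach⟩ := reach W (noe_rg hR ρ hT₁) hB hn hm
  set U : Set F := T₁ ∪ (T₀ ∪ {x⁻¹}) with hU
  have hUf : U.Finite := hT₁.union (hT₀.union (Set.finite_singleton _))
  have hUW : ∀ u ∈ U, u ∈ W := by
    rintro u (hu | hu | hu)
    · exact hB (Subring.subset_closure (Or.inr hu))
    · exact hT₀W u hu
    · have h2 : u = x⁻¹ := hu
      rw [h2]
      exact hxi
  refine ⟨U, hUf, fun T hT hTW hTF => ?_⟩
  refine gp_move hUf (fun u hu => ⟨hUW u hu, hTF u hu⟩) ?_
  rw [closure_closure_union, Set.union_assoc]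
  set X : Set F := T ∪ U with hX
  have hXf : X.Finite := hT.union hUf
  have hXW : ∀ z ∈ X, z ∈ W := by
    rintro z (hz | hz)
    · exact hTW (Subring.subset_closure (Or.inr hz))
    · exact hUW z hz
  have hρW : ∀ c, ρ c ∈ W := fun c => hTW (Subring.subset_closure (Or.inl ⟨c, rfl⟩))
  have hAW : rg ρ X ≤ W.toSubring := by
    rw [Subring.closure_le]
    rintro z (⟨c, rfl⟩ | hz)
    · exact hρW c
    · exact hXW z hz
  have hAB : rg ρ X = Subring.closure ((rg ρ T₁ : Set F) ∪ X) := by
    apply le_antisymm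
    · rw [Subring.closure_le]
      rintro z (hz | hz)
      · exact Subring.subset_closure (Or.inl (Subring.subset_closure (Or.inl hz)))
      · exact Subring.subset_closure (Or.inr hz)
    · rw [Subring.closure_le]
      rintro z (hz | hz)
      · refine Subring.closure_mono (Set.union_subset_union_right _ ?_) hz
        exact fun y hy => Or.inr (Or.inl hy)
      · exact Subring.subset_closure (Or.inr hz)
  obtain ⟨-, hht, halg⟩ := hreach (rg ρ X) hAW X hXf hXW hAB
    (fun y hy => Or.inr (Or.inr (Or.inl hy)))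
  have hht' := hht d hd
  -- restriction to the fraction field
  let E : Subfield F := Subfield.closure (rg ρ X : Set F)
  have hAE : ∀ z ∈ rg ρ X, z ∈ E := fun z hz => Subfield.subset_closure hz
  let f : E →+* F := E.subtype
  let ρE : R →+* E := ρ.codRestrict E fun c => hAE _ (Subring.subset_closure (Or.inl ⟨c, rfl⟩))
  let XE : Set E := {e | (e : F) ∈ X}
  have hXEf : XE.Finite := hXf.preimage Subtype.val_injective.injOn
  have hmap : (rg ρE XE).map f = rg ρ X := by
    rw [RingHom.map_closure, Set.image_union]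
    congr 2
    · ext z
      constructor
      · rintro ⟨_, ⟨c, rfl⟩, rfl⟩
        exact ⟨c, rfl⟩
      · rintro ⟨c, rfl⟩
        exact ⟨ρE c, ⟨c, rfl⟩, rfl⟩
    · ext z
      constructor
      · rintro ⟨e, he, rfl⟩
        exact he
      · intro hz
        exact ⟨⟨z, hAE z (Subring.subset_closure (Or.inr hz))⟩, hz, rfl⟩
  have hgoal : GP W ((rg ρE XE).map f) := by
    refine gp_map f W ?_
    have hnoe : IsNoetherianRing (rg ρE XE) := noe_rg hR ρE hXEf
    have hEW : rg ρE XE ≤ (W.comap f).toSubring := by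
      intro b hb
      have h2 : f b ∈ rg ρ X := by
        rw [← hmap]
        exact ⟨b, hb, rfl⟩
      exact hAW h2
    have hEfr : ∀ z : E, Fr (rg ρE XE) z := by
      rintro ⟨z, hz⟩
      have hz' : z ∈ Subfield.closure (rg ρ X : Set F) := hz
      rw [Subfield.mem_closure_iff, Subring.closure_eq] at hz'
      obtain ⟨r, hr, s, hs, hrs⟩ := hz'
      rw [← hmap] at hr hs
      obtain ⟨b, hb, hbr⟩ := hr
      obtain ⟨c, hc, hcs⟩ := hs
      by_cases hc0 : c = 0
      · refine ⟨0, Subring.zero_mem _, 1, Subring.one_mem _, one_ne_zero, Subtype.ext ?_⟩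
        change z = _
        rw [← hrs, ← hcs, hc0]
        simp
      · refine ⟨b, hb, c, hc, hc0, Subtype.ext ?_⟩
        change z = _
        rw [← hrs, ← hbr, ← hcs, div_eq_mul_inv]
        rfl
    have hmem : ∀ b : E, b ∈ rg ρE XE ↔ (b : F) ∈ rg ρ X := by
      intro b
      rw [← hmap]
      constructor
      · intro hb
        exact ⟨b, hb, rfl⟩
      · rintro ⟨b', hb', hbb⟩
        have h2 : b' = b := Subtype.ext hbb
        rw [← h2]
        exact hb'
    let e : rg ρE XE ≃+* rg ρ X :=
      { toFun := fun b => ⟨f b, (hmem b).1 b.2⟩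
        invFun := fun a => ⟨⟨a, hAE a a.2⟩, (hmem _).2 a.2⟩
        left_inv := fun b => rfl
        right_inv := fun a => rfl
        map_mul' := fun a b => rfl
        map_add' := fun a b => rfl }
    have hcen : ∀ b : rg ρE XE, b ∈ cen (W.comap f) (rg ρE XE) hEW ↔ e b ∈ cen W (rg ρ X) hAW := by
      intro b
      rw [mem_cen, mem_cen]
      have h2 : ((e b : rg ρ X) : F) = f b := rfl
      rw [h2]
      constructor
      · rintro (h3 | h3)
        · left
          rw [h3, map_zero]
        · right
          intro h4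
          apply h3
          change f _ ∈ W
          rw [map_inv₀]
          exact h4
      · rintro (h3 | h3)
        · left
          exact f.injective (by rw [h3, map_zero])
        · right
          intro h4
          apply h3
          have h5 : f ((b : E)⁻¹) ∈ W := h4
          rwa [map_inv₀] at h5
    refine gp_of_logUnif ⟨hEW, hEfr⟩ (hLU E ρE XE (W.comap f) hXEf hEfr hEW ?_ ?_
      (fun V' hV' => rank_comap f W h1 V' hV') ?_)
    · have h2 : cen (W.comap f) (rg ρE XE) hEW = (cen W (rg ρ X) hAW).comap e := by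
        ext b
        rw [hcen, Ideal.mem_comap]
      rw [h2, RingEquiv.height_comap]
      exact hht'
    · intro htop
      have hx0 : x⁻¹ ∈ rg ρ X := Subring.subset_closure (Or.inr (Or.inr (Or.inr (Or.inr rfl))))
      have h2 : (⟨x⁻¹, hAE _ hx0⟩ : E)⁻¹ ∈ W.comap f := by
        rw [htop]
        trivial
      have h3 : f ((⟨x⁻¹, hAE _ hx0⟩ : E)⁻¹) ∈ W := h2
      rw [map_inv₀] at h3
      have h4 : (f ⟨x⁻¹, hAE _ hx0⟩)⁻¹ = x := inv_inv x
      rw [h4] at h3
      exact hx h3
    · intro z hz
      obtain ⟨P, ⟨i, hi⟩, hP⟩ := halg (z : F) hz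
      refine ⟨P.map (e.symm : rg ρ X →+* rg ρE XE), ⟨i, ?_⟩, ?_⟩
      · rw [hcen, Polynomial.coeff_map]
        have h2 : e ((e.symm : rg ρ X →+* rg ρE XE) (P.coeff i)) = P.coeff i :=
          e.apply_symm_apply _
        rw [h2]
        exact hi
      · have h2 : f (Polynomial.eval₂ (rg ρE XE).subtype z
            (P.map (e.symm : rg ρ X →+* rg ρE XE))) =
            Polynomial.eval₂ (rg ρ X).subtype (z : F) P := by
          rw [Polynomial.eval₂_map, Polynomial.hom_eval₂]
          rfl
        rw [vlt] at hP ⊢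
        rw [← h2] at hP
        rcases hP with h3 | h3
        · left
          exact f.injective (by rw [h3, map_zero])
        · right
          intro h4
          apply h3
          have h5 : f ((Polynomial.eval₂ (rg ρE XE).subtype z
            (P.map (e.symm : rg ρ X →+* rg ρE XE)))⁻¹) ∈ W := h4
          rwa [map_inv₀] at h5
  rw [hmap] at hgoal
  exact hgoal

end Pool.Agent.K6.H25.QE
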