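import Pool.Agent.K6.H25.QE.Dim

/-!
# The dimension inequality
-/

set_option autoImplicit false
set_option linter.unusedVariables false
set_option linter.unusedSectionVars false

universe u

namespace Pool.Agent.K6.H25.QE

open Polynomial IsLocalRing Cardinal

theorem gen {B C : Type u} [CommRing B] [IsDomain B] [IsNoetherianRing B] [CommRing C] [IsDomain C]
    [Algebra B C] [FaithfulSMul B C] (z : C)
    (hz : Function.Surjective (aeval z : B[X] →ₐ[B] C)) (P : Ideal C) [P.IsPrime] :
    IsNoetherianRing C ∧ ∃ a : ℕ, (a : Cardinal.{u}) ≤ Algebra.trdeg B C ∧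
      P.height ≤ (P.comap (algebraMap B C)).height + a ∧
      ((∀ f : B[X], aeval z f ∈ P → ∀ i, algebraMap B C (f.coeff i) ∈ P) →
        P.height + 1 ≤ (P.comap (algebraMap B C)).height + a) := by
  let Φ : B[X] →+* C := (aeval z : B[X] →ₐ[B] C)
  have hΦ : Function.Surjective Φ := hz
  have hn : IsNoetherianRing C := isNoetherianRing_of_surjective B[X] C Φ hΦ
  refine ⟨hn, ?_⟩
  set p := P.comap (algebraMap B C) with hp
  have hpp : p.IsPrime := Ideal.comap_isPrime _ _
  have hQp : (P.comap Φ).IsPrime := Ideal.comap_isPrime _ _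
  have hlo : (P.comap Φ).LiesOver p := by
    refine ⟨?_⟩
    ext x
    rw [Ideal.under_def, Ideal.mem_comap, Ideal.mem_comap, Ideal.mem_comap]
    have h1 : Φ (algebraMap B B[X] x) = algebraMap B C x := (aeval z).commutes x
    rw [h1]
  have hfib : (P.comap Φ).height ≤ p.height + 1 := fib p _
  have hres : (∀ f : B[X], aeval z f ∈ P → ∀ i, algebraMap B C (f.coeff i) ∈ P) →
      (P.comap Φ).height ≤ p.height := by
    intro h
    have h1 : P.comap Φ = p.map (algebraMap B B[X]) := by
      refine le_antisymm (fun f hf => ?_) ?_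
      · refine (Ideal.mem_map_C_iff (I := p)).2 fun i => ?_
        exact h f hf i
      · rw [Ideal.map_le_iff_le_comap]
        intro x hx
        have h2 : Φ (algebraMap B B[X] x) = algebraMap B C x := (aeval z).commutes x
        change Φ (algebraMap B B[X] x) ∈ P
        rw [h2]
        exact hx
    rw [h1]
    exact fib0 p
  by_cases hk : RingHom.ker Φ = ⊥
  · refine ⟨1, ?_, ?_, ?_⟩
    · have h1 : Transcendental B z := by
        rw [transcendental_iff_injective]
        exact (RingHom.injective_iff_ker_eq_bot Φ).2 hk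
      have h2 : Algebra.Transcendental B C := ⟨z, h1⟩
      rw [Nat.cast_one]
      exact Cardinal.one_le_iff_pos.2 (_root_.trdeg_pos B C)
    · exact (lif Φ hΦ P).trans (by exact_mod_cast hfib)
    · intro h
      have h1 := (lif Φ hΦ P).trans (hres h)
      rw [Nat.cast_one]
      gcongr
  · refine ⟨0, by simp, ?_, ?_⟩
    · have h1 := (lif1 Φ hΦ hk P).trans hfib
      rw [Nat.cast_zero, add_zero]
      exact (ENat.add_le_add_iff_right ENat.one_ne_top).1 h1
    · intro h
      rw [Nat.cast_zero, add_zero]
      exact (lif1 Φ hΦ hk P).trans (hres h)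

variable {F : Type u} [Field F]

/-- The residue map of a subring. -/
noncomputable def psi (W : ValuationSubring F) (B : Subring F) (h : B ≤ W.toSubring) :
    B →+* ResidueField W :=
  (residue W).comp (Subring.inclusion (T := W.toSubring) h)

/-- The centre of a valuation ring. -/
noncomputable def cen (W : ValuationSubring F) (B : Subring F) (h : B ≤ W.toSubring) : Ideal B :=
  RingHom.ker (psi W B h)

instance (W : ValuationSubring F) (B : Subring F) (h : B ≤ W.toSubring) :
    (cen W B h).IsPrime := RingHom.ker_isPrime _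

theorem mu_step (W : ValuationSubring F) {B B' : Subring F} (hB : IsNoetherianRing B)
    (h : B ≤ W.toSubring) (h' : B' ≤ W.toSubring) (z : F) (hB' : B' = Subring.closure (B ∪ {z}))
    {n n' : ℕ} (hn : Algebra.trdeg B F = n) (hn' : Algebra.trdeg B' F = n') :
    IsNoetherianRing B' ∧ (cen W B' h').height + n' ≤ (cen W B h).height + n ∧
    ((∀ f : Polynomial B, ∀ hf : eval₂ B.subtype z f ∈ W, residue W ⟨_, hf⟩ = 0 →
      ∀ i, f.coeff i ∈ cen W B h) →
        (cen W B' h').height + n' + 1 ≤ (cen W B h).height + n) := by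
  have hBB : B ≤ B' := by
    rw [hB']
    exact fun x hx => Subring.subset_closure (Or.inl hx)
  have hz : z ∈ B' := by
    rw [hB']
    exact Subring.subset_closure (Or.inr rfl)
  let _ : Algebra B B' := (Subring.inclusion hBB).toAlgebra
  have htow : IsScalarTower B B' F := IsScalarTower.of_algebraMap_eq fun c => rfl
  have hfBB : FaithfulSMul B B' := (faithfulSMul_iff_algebraMap_injective B B').2
    (Subring.inclusion_injective hBB)
  have hfB : FaithfulSMul B F := (faithfulSMul_iff_algebraMap_injective B F).2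
    Subtype.val_injective
  have hfB' : FaithfulSMul B' F := (faithfulSMul_iff_algebraMap_injective B' F).2
    Subtype.val_injective
  have hcoe : ∀ f : B[X], ((aeval (⟨z, hz⟩ : B') f : B') : F) = eval₂ B.subtype z f := by
    intro f
    have h1 : ((aeval (⟨z, hz⟩ : B') f : B') : F) = B'.subtype (aeval (⟨z, hz⟩ : B') f) := rfl
    rw [h1, aeval_def, hom_eval₂]
    rfl
  have hsurj : Function.Surjective (aeval (⟨z, hz⟩ : B') : B[X] →ₐ[B] B') := by
    have h1 : B' ≤ (eval₂RingHom B.subtype z).range := by
      rw [hB', Subring.closure_le]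
      rintro x (hx | hx)
      · exact ⟨C ⟨x, hx⟩, by simp⟩
      · have hx' : x = z := hx
        exact ⟨X, by simp [hx']⟩
    rintro ⟨x, hx⟩
    obtain ⟨f, hf⟩ := h1 hx
    exact ⟨f, Subtype.ext ((hcoe f).trans hf)⟩
  obtain ⟨hN, a, ha, h1, h2⟩ := gen (⟨z, hz⟩ : B') hsurj (cen W B' h')
  have hc : (cen W B' h').comap (algebraMap B B') = cen W B h := rfl
  rw [hc] at h1 h2
  have htr : Algebra.trdeg B B' + Algebra.trdeg B' F = Algebra.trdeg B F :=
    _root_.trdeg_add_eq B B'
  have han : a + n' ≤ n := by
    have h3 : (a : Cardinal.{u}) + n' ≤ n := by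
      rw [← hn, ← hn', ← htr]
      gcongr
    exact_mod_cast h3
  have han' : (a : ℕ∞) + n' ≤ n := by exact_mod_cast han
  refine ⟨hN, ?_, fun hres => ?_⟩
  · calc (cen W B' h').height + n' ≤ (cen W B h).height + a + n' := by gcongr
      _ = (cen W B h).height + (a + n') := by rw [add_assoc]
      _ ≤ _ := by gcongr
  · have h3 := h2 fun f hf i => by
      have hfW : eval₂ B.subtype z f ∈ W := by
        rw [← hcoe]
        exact h' (aeval (⟨z, hz⟩ : B') f).2
      refine hres f hfW ?_ i
      have h4 : (⟨eval₂ B.subtype z f, hfW⟩ : W) =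
          (⟨(aeval (⟨z, hz⟩ : B') f : B'), h' (aeval (⟨z, hz⟩ : B') f).2⟩ : W) :=
        Subtype.ext (hcoe f).symm
      rw [h4]
      exact hf
    calc (cen W B' h').height + n' + 1 = ((cen W B' h').height + 1) + n' := by
          rw [add_right_comm]
      _ ≤ (cen W B h).height + a + n' := by gcongr
      _ = (cen W B h).height + (a + n') := by rw [add_assoc]
      _ ≤ _ := by gcongr

end Pool.Agent.K6.H25.QE
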