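import Pool.Agent.K6.H25.QE.Mu

/-!
# Finitely many elements
-/

set_option autoImplicit false
set_option linter.unusedVariables false
set_option linter.unusedSectionVars false

universe u

namespace Pool.Agent.K6.H25.QE

open Polynomial IsLocalRing Cardinal

variable {F : Type u} [Field F]

lemma trdeg_le_of_le {B B' : Subring F} (h : B ≤ B') : Algebra.trdeg B' F ≤ Algebra.trdeg B F := by
  let _ : Algebra B B' := (Subring.inclusion h).toAlgebra
  have htow : IsScalarTower B B' F := IsScalarTower.of_algebraMap_eq fun c => rfl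
  have hfBB : FaithfulSMul B B' := (faithfulSMul_iff_algebraMap_injective B B').2
    (Subring.inclusion_injective h)
  have hfB' : FaithfulSMul B' F := (faithfulSMul_iff_algebraMap_injective B' F).2
    Subtype.val_injective
  have htr : Algebra.trdeg B B' + Algebra.trdeg B' F = Algebra.trdeg B F :=
    _root_.trdeg_add_eq B B'
  rw [← htr]
  exact le_add_self

lemma cl_insert (B : Subring F) (s : Set F) (a : F) :
    Subring.closure ((B : Set F) ∪ insert a s) =
      Subring.closure ((Subring.closure ((B : Set F) ∪ s) : Set F) ∪ {a}) := by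
  apply le_antisymm
  · rw [Subring.closure_le]
    rintro x (hx | hx | hx)
    · exact Subring.subset_closure (Or.inl (Subring.subset_closure (Or.inl hx)))
    · exact Subring.subset_closure (Or.inr hx)
    · exact Subring.subset_closure (Or.inl (Subring.subset_closure (Or.inr hx)))
  · rw [Subring.closure_le]
    rintro x (hx | hx)
    · refine Subring.closure_mono ?_ hx
      exact Set.union_subset_union_right _ (Set.subset_insert _ _)
    · exact Subring.subset_closure (Or.inr (Or.inl hx))

lemma cl_le {W : ValuationSubring F} {B : Subring F} (h : B ≤ W.toSubring) {T : Set F}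
    (hT : ∀ z ∈ T, z ∈ W) : Subring.closure ((B : Set F) ∪ T) ≤ W.toSubring := by
  rw [Subring.closure_le]
  rintro x (hx | hx)
  · exact h hx
  · exact hT x hx

lemma le_cl (B : Subring F) (T : Set F) : B ≤ Subring.closure ((B : Set F) ∪ T) :=
  fun x hx => Subring.subset_closure (Or.inl hx)

lemma cl_empty (B : Subring F) : Subring.closure ((B : Set F) ∪ ∅) = B := by
  rw [Set.union_empty, Subring.closure_eq]

theorem mu_add (W : ValuationSubring F) {B : Subring F} (hN : IsNoetherianRing B)
    (h : B ≤ W.toSubring) {n : ℕ} (hn : Algebra.trdeg B F = n) (T : Set F) (hT : T.Finite) :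
    (∀ z ∈ T, z ∈ W) → ∀ (B' : Subring F) (h' : B' ≤ W.toSubring) (n' : ℕ),
      B' = Subring.closure ((B : Set F) ∪ T) → Algebra.trdeg B' F = n' →
      IsNoetherianRing B' ∧ (cen W B' h').height + n' ≤ (cen W B h).height + n := by
  induction T, hT using Set.Finite.induction_on with
  | empty =>
    intro _ B' h' n' hB' hn'
    rw [cl_empty] at hB'
    subst hB'
    have h1 : n' = n := by
      rw [hn] at hn'
      exact_mod_cast hn'.symm
    subst h1
    exact ⟨hN, le_rfl⟩
  | @insert a s ha hs ih =>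
    intro hTW B' h' n' hB' hn'
    have hsW : ∀ z ∈ s, z ∈ W := fun z hz => hTW z (Or.inr hz)
    have h1 := cl_le h hsW
    obtain ⟨n₁, hn₁⟩ := Cardinal.lt_aleph0.1 ((trdeg_le_of_le (le_cl B s)).trans_lt
      (by rw [hn]; exact Cardinal.natCast_lt_aleph0))
    obtain ⟨h2, h3⟩ := ih hsW _ h1 n₁ rfl hn₁
    rw [cl_insert] at hB'
    obtain ⟨h4, h5, -⟩ := mu_step W h2 h1 h' a hB' hn₁ hn'
    exact ⟨h4, h5.trans h3⟩

lemma res_eval (W : ValuationSubring F) {B : Subring F} (h : B ≤ W.toSubring) (z : F) (hz : z ∈ W)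
    (f : B[X]) : ∃ hf : eval₂ B.subtype z f ∈ W,
      residue W ⟨_, hf⟩ = eval₂ (psi W B h) (residue W ⟨z, hz⟩) f := by
  let g : B →+* W := Subring.inclusion (T := W.toSubring) h
  have h1 : ((eval₂ g (⟨z, hz⟩ : W) f : W) : F) = eval₂ B.subtype z f := by
    have h2 : ((eval₂ g (⟨z, hz⟩ : W) f : W) : F) = W.subtype (eval₂ g (⟨z, hz⟩ : W) f) := rfl
    rw [h2, hom_eval₂]
    rfl
  have h3 : eval₂ B.subtype z f ∈ W := by
    rw [← h1]
    exact (eval₂ g (⟨z, hz⟩ : W) f).2
  refine ⟨h3, ?_⟩
  have h4 : (⟨_, h3⟩ : W) = eval₂ g (⟨z, hz⟩ : W) f := Subtype.ext h1.symm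
  rw [h4, hom_eval₂]
  rfl

/-- The residues of the elements of a closure. -/
lemma res_closure (W : ValuationSubring F) {B : Subring F} (h : B ≤ W.toSubring) {ι : Type u}
    (t : ι → F) (ht : ∀ i, t i ∈ W) (s : Set ι)
    (h₁ : Subring.closure ((B : Set F) ∪ t '' s) ≤ W.toSubring) :
    ((psi W _ h₁).range : Set (ResidueField W)) =
      (Algebra.adjoin (psi W B h).range ((fun i => residue W ⟨t i, ht i⟩) '' s) :
        Set (ResidueField W)) := by
  apply Set.Subset.antisymm
  · let S : Subring F := ((Algebra.adjoin (psi W B h).range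
      ((fun i => residue W ⟨t i, ht i⟩) '' s)).toSubring.comap (residue W)).map W.subtype
    have hS : Subring.closure ((B : Set F) ∪ t '' s) ≤ S := by
      rw [Subring.closure_le]
      rintro x (hx | ⟨i, hi, rfl⟩)
      · refine ⟨⟨x, h hx⟩, ?_, rfl⟩
        change residue W ⟨x, h hx⟩ ∈ Algebra.adjoin (psi W B h).range _
        exact Subalgebra.algebraMap_mem _ (⟨_, ⟨⟨x, hx⟩, rfl⟩⟩ : (psi W B h).range)
      · refine ⟨⟨t i, ht i⟩, ?_, rfl⟩
        change residue W ⟨t i, ht i⟩ ∈ Algebra.adjoin (psi W B h).range _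
        exact Algebra.subset_adjoin ⟨i, hi, rfl⟩
    rintro _ ⟨⟨b, hb⟩, rfl⟩
    obtain ⟨y, hy, hyb⟩ := hS hb
    have h2 : psi W _ h₁ ⟨b, hb⟩ = residue W y := by
      change residue W ⟨b, _⟩ = residue W y
      congr 1
      exact Subtype.ext hyb.symm
    rw [h2]
    exact hy
  · intro x hx
    have hle : (Algebra.adjoin (psi W B h).range
        ((fun i => residue W ⟨t i, ht i⟩) '' s)).toSubring ≤ (psi W _ h₁).range := by
      rw [Algebra.adjoin_eq_ring_closure, Subring.closure_le]
      rintro y (⟨⟨_, ⟨b, rfl⟩⟩, rfl⟩ | ⟨i, hi, rfl⟩)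
      · exact ⟨⟨b, le_cl B _ b.2⟩, rfl⟩
      · exact ⟨⟨t i, Subring.subset_closure (Or.inr ⟨i, hi, rfl⟩)⟩, rfl⟩
    exact hle hx

theorem mu_ind (W : ValuationSubring F) {B : Subring F} (hN : IsNoetherianRing B)
    (h : B ≤ W.toSubring) {n : ℕ} (hn : Algebra.trdeg B F = n) {ι : Type u} [DecidableEq ι]
    (t : ι → F) (ht : ∀ i, t i ∈ W)
    (hai : AlgebraicIndependent (psi W B h).range (fun i => residue W ⟨t i, ht i⟩))
    (s : Finset ι) : ∀ (B' : Subring F) (h' : B' ≤ W.toSubring) (n' : ℕ),
      B' = Subring.closure ((B : Set F) ∪ t '' s) → Algebra.trdeg B' F = n' →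
      IsNoetherianRing B' ∧ (cen W B' h').height + n' + s.card ≤ (cen W B h).height + n := by
  induction s using Finset.induction_on with
  | empty =>
    intro B' h' n' hB' hn'
    rw [Finset.coe_empty, Set.image_empty, cl_empty] at hB'
    subst hB'
    have h1 : n' = n := by
      rw [hn] at hn'
      exact_mod_cast hn'.symm
    subst h1
    exact ⟨hN, by simp⟩
  | insert i s hi ih =>
    intro B' h' n' hB' hn'
    have hsW : ∀ z ∈ t '' (s : Set ι), z ∈ W := by
      rintro _ ⟨j, -, rfl⟩
      exact ht j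
    have h1 := cl_le h hsW
    obtain ⟨n₁, hn₁⟩ := Cardinal.lt_aleph0.1 ((trdeg_le_of_le (le_cl B (t '' s))).trans_lt
      (by rw [hn]; exact Cardinal.natCast_lt_aleph0))
    obtain ⟨h2, h3⟩ := ih _ h1 n₁ rfl hn₁
    rw [Finset.coe_insert, Set.image_insert_eq, cl_insert] at hB'
    obtain ⟨h4, -, h5⟩ := mu_step W h2 h1 h' (t i) hB' hn₁ hn'
    refine ⟨h4, ?_⟩
    have h6 := h5 ?_
    · rw [Finset.card_insert_of_notMem hi]
      push_cast
      calc (cen W B' h').height + n' + ((s.card : ℕ∞) + 1)
          = ((cen W B' h').height + n' + 1) + s.card := by ring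
        _ ≤ ((cen W _ h1).height + n₁) + s.card := by gcongr
        _ ≤ _ := h3
    · intro f hf h0 j
      set Ad := Algebra.adjoin (psi W B h).range ((fun i => residue W ⟨t i, ht i⟩) '' (s : Set ι))
        with hAd
      have hmem : ∀ b, psi W _ h1 b ∈ Ad := by
        intro b
        have h7 := res_closure W h t ht (s : Set ι) h1
        have h8 : psi W _ h1 b ∈ ((psi W _ h1).range : Set (ResidueField W)) := ⟨b, rfl⟩
        rw [h7] at h8
        exact h8
      let θ : Subring.closure ((B : Set F) ∪ t '' (s : Set ι)) →+* Ad :=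
        (psi W _ h1).codRestrict Ad hmem
      have htr : Transcendental Ad (residue W ⟨t i, ht i⟩) :=
        hai.transcendental_adjoin (s := (s : Set ι)) (i := i) (by simpa using hi)
      have hg : aeval (residue W ⟨t i, ht i⟩) (f.map θ) = 0 := by
        obtain ⟨hf', h7⟩ := res_eval W h1 (t i) (ht i) f
        rw [h0] at h7
        rw [aeval_def, eval₂_map]
        exact h7.symm
      have hg0 : f.map θ = 0 := by
        by_contra h8
        exact htr ⟨_, h8, hg⟩
      have h9 := congrArg (fun q => Polynomial.coeff q j) hg0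
      simp only [coeff_map, coeff_zero] at h9
      change psi W _ h1 (f.coeff j) = 0
      exact congrArg Subtype.val h9

theorem reach (W : ValuationSubring F) {B : Subring F} (hN : IsNoetherianRing B)
    (h : B ≤ W.toSubring) {n m : ℕ} (hn : Algebra.trdeg B F = n)
    (hm : Algebra.trdeg (psi W B h).range (ResidueField W) = m) :
    ∃ T₀ : Set F, T₀.Finite ∧ (∀ z ∈ T₀, z ∈ W) ∧ ∀ (A : Subring F) (hA : A ≤ W.toSubring)
      (T : Set F), T.Finite → (∀ z ∈ T, z ∈ W) → A = Subring.closure ((B : Set F) ∪ T) → T₀ ⊆ T →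
      IsNoetherianRing A ∧
      (∀ d : ℕ, (cen W B h).height + n ≤ m + d → (cen W A hA).height ≤ d) ∧
      ∀ z ∈ W, ∃ P : Polynomial A, (∃ i, P.coeff i ∉ cen W A hA) ∧
        W.valuation (eval₂ A.subtype z P) < 1 := by
  classical
  obtain ⟨s, hs⟩ := exists_isTranscendenceBasis (psi W B h).range (ResidueField W)
  have h2 : Cardinal.mk s = m := hs.cardinalMk_eq_trdeg.trans hm
  have hfin : Finite s := by
    rw [← Cardinal.lt_aleph0_iff_finite, h2]
    exact Cardinal.natCast_lt_aleph0
  have := Fintype.ofFinite s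
  have hcard : Fintype.card s = m := by
    rw [Cardinal.mk_fintype] at h2
    exact_mod_cast h2
  choose l hl using fun w : s => residue_surjective (R := W) (w : ResidueField W)
  let t : s → F := fun w => ((l w : W) : F)
  have ht : ∀ w, t w ∈ W := fun w => (l w).2
  have hres : (fun w => residue W ⟨t w, ht w⟩) = (fun w : s => (w : ResidueField W)) :=
    funext fun w => hl w
  have hb : IsTranscendenceBasis (psi W B h).range (fun w => residue W ⟨t w, ht w⟩) := by
    rw [hres]
    exact hs
  have htW : ∀ z ∈ t '' (Finset.univ : Finset s), z ∈ W := by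
    rintro _ ⟨w, -, rfl⟩
    exact ht w
  refine ⟨t '' (Finset.univ : Finset s), (Finset.finite_toSet _).image _, htW,
    fun A hA T hT hTW hAT hT₀ => ?_⟩
  have h1 := cl_le h htW
  obtain ⟨n₁, hn₁⟩ := Cardinal.lt_aleph0.1 ((trdeg_le_of_le (le_cl B
    (t '' (Finset.univ : Finset s)))).trans_lt (by rw [hn]; exact Cardinal.natCast_lt_aleph0))
  obtain ⟨h3, h4⟩ := mu_ind W hN h hn t ht hb.1 Finset.univ _ h1 n₁ rfl hn₁
  rw [Finset.card_univ, hcard] at h4
  have hAT' : A = Subring.closure ((Subring.closure ((B : Set F) ∪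
      t '' (Finset.univ : Finset s)) : Set F) ∪ T) := by
    rw [hAT]
    apply le_antisymm
    · refine Subring.closure_mono (Set.union_subset_union_left _ ?_)
      exact fun x hx => Subring.subset_closure (Or.inl hx)
    · rw [Subring.closure_le]
      rintro x (hx | hx)
      · exact Subring.closure_mono (Set.union_subset_union_right _ hT₀) hx
      · exact Subring.subset_closure (Or.inr hx)
  have hle : Subring.closure ((B : Set F) ∪ t '' (Finset.univ : Finset s)) ≤ A := by
    rw [hAT']
    exact le_cl _ _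
  obtain ⟨n₂, hn₂⟩ := Cardinal.lt_aleph0.1 ((trdeg_le_of_le hle).trans_lt
    (by rw [hn₁]; exact Cardinal.natCast_lt_aleph0))
  obtain ⟨h5, h6⟩ := mu_add W h3 h1 hn₁ T hT hTW A hA n₂ hAT' hn₂
  refine ⟨h5, fun d hd => ?_, fun z hz => ?_⟩
  · have h7 : (m : ℕ∞) + ((cen W A hA).height + n₂) ≤ m + d := by
      calc (m : ℕ∞) + ((cen W A hA).height + n₂) ≤ m + ((cen W _ h1).height + n₁) := by gcongr
        _ = (cen W _ h1).height + n₁ + m := add_comm _ _
        _ ≤ _ := h4
        _ ≤ _ := hd
    have h8 := (ENat.add_le_add_iff_left (ENat.coe_ne_top m)).1 h7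
    exact le_self_add.trans h8
  · have halg : Algebra.IsAlgebraic (Algebra.adjoin (psi W B h).range
        (Set.range fun w => residue W ⟨t w, ht w⟩)) (ResidueField W) := hb.isAlgebraic
    obtain ⟨p, hp0, hp⟩ := halg.isAlgebraic (residue W ⟨z, hz⟩)
    let q : (ResidueField W)[X] := p.map (algebraMap _ (ResidueField W))
    have hq0 : q ≠ 0 := by
      intro h0
      apply hp0
      exact (Polynomial.map_injective _ Subtype.val_injective)
        (h0.trans (Polynomial.map_zero _).symm)
    have hlift : q ∈ lifts (psi W A hA) := by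
      rw [lifts_iff_coeff_lifts]
      intro i
      have h7 := res_closure W h t ht ((Finset.univ : Finset s) : Set s) h1
      have h8 : q.coeff i ∈ ((psi W _ h1).range : Set (ResidueField W)) := by
        rw [h7, Finset.coe_univ, Set.image_univ, coeff_map]
        exact (p.coeff i).2
      obtain ⟨b, hb⟩ := h8
      exact ⟨⟨b, hle b.2⟩, hb⟩
    rw [mem_lifts] at hlift
    obtain ⟨P, hP⟩ := hlift
    refine ⟨P, ?_, ?_⟩
    · obtain ⟨i, hi⟩ : ∃ i, q.coeff i ≠ 0 := by
        by_contra hcon
        push Not at hcon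
        exact hq0 (Polynomial.ext hcon)
      refine ⟨i, fun h7 => hi ?_⟩
      rw [← hP, coeff_map]
      exact h7
    · obtain ⟨hf, h7⟩ := res_eval W hA z hz P
      have h8 : eval₂ (psi W A hA) (residue W ⟨z, hz⟩) P = 0 := by
        rw [← eval_map, hP, eval_map]
        exact hp
      rw [h8, residue_eq_zero_iff] at h7
      exact (W.valuation_lt_one_iff ⟨_, hf⟩).1 h7

end Pool.Agent.K6.H25.QE
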